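import Pool.Agent.Helper63.XP.StA

/-! Project XP (MP_c973ff_an), module EEX: norm of `x`, flatness of the range of `E`, rank of `E`. -/

set_option autoImplicit false

namespace Pool.Agent.Helper52.XP

open Pool.Agent.Helper63.XP
open Pool.Agent.Helper63.XR (gen blk wt StTrh StRkt StBon)
open Finset

private theorem np_nonneg {J : Type} [Fintype J] (p : ℝ) (f : J → ℂ) : 0 ≤ np p f :=
  sum_nonneg fun _ _ => Real.rpow_nonneg (norm_nonneg _) _

private theorem np_single {J : Type} [Fintype J] [DecidableEq J] {p : ℝ} (hp : 1 < p) (j : J) :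
    np p (Pi.single j (1 : ℂ)) = 1 := by
  unfold np
  rw [sum_eq_single j]
  · simp
  · intro i _ hi
    rw [Pi.single_eq_of_ne hi, norm_zero, Real.zero_rpow (by linarith)]
  · intro h
    exact absurd (mem_univ j) h

/-- the operator bound, without the power -/
private theorem opLe_root {m n : Type} [Fintype m] [Fintype n] {p K : ℝ} (hp : 1 < p) (hK : 0 ≤ K) {M : Matrix m n ℂ}
    (hM : OpLe p M K) (v : n → ℂ) : np p (M.mulVec v) ^ (1 / p) ≤ K * np p v ^ (1 / p) := by
  have hp0 : p ≠ 0 := by linarith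
  calc np p (M.mulVec v) ^ (1 / p) ≤ (K ^ p * np p v) ^ (1 / p) :=
        Real.rpow_le_rpow (np_nonneg _ _) (hM v) (by positivity)
    _ = K * np p v ^ (1 / p) := by
        rw [Real.mul_rpow (Real.rpow_nonneg hK _) (np_nonneg _ _), ← Real.rpow_mul hK, mul_one_div_cancel hp0,
          Real.rpow_one]

/-- Hölder -/
private theorem holder {U : Type} (s : Finset U) (f : U → ℝ) (hf : ∀ u ∈ s, 0 ≤ f u) {p N T : ℝ} (hp : 1 < p)
    (hN : (s.card : ℝ) ≤ N) (hT : ∑ u ∈ s, f u ^ p ≤ T) : ∑ u ∈ s, f u ≤ N ^ (1 - 1 / p) * T ^ (1 / p) := by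
  have hp0 : p ≠ 0 := by linarith
  have h1 : (∑ u ∈ s, f u) ^ p ≤ (s.card : ℝ) ^ (p - 1) * ∑ u ∈ s, f u ^ p :=
    Real.rpow_sum_le_const_mul_sum_rpow_of_nonneg s hp.le hf
  have hs0 : (0 : ℝ) ≤ s.card := Nat.cast_nonneg _
  have hN0 : 0 ≤ N := hs0.trans hN
  have hsum0 : 0 ≤ ∑ u ∈ s, f u ^ p := sum_nonneg fun u hu => Real.rpow_nonneg (hf u hu) _
  have hT0 : 0 ≤ T := hsum0.trans hT
  have h2 : (∑ u ∈ s, f u) ^ p ≤ N ^ (p - 1) * T :=
    h1.trans (mul_le_mul (Real.rpow_le_rpow hs0 hN (by linarith)) hT hsum0 (Real.rpow_nonneg hN0 _))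
  have h3 : 0 ≤ ∑ u ∈ s, f u := sum_nonneg hf
  calc ∑ u ∈ s, f u = ((∑ u ∈ s, f u) ^ p) ^ (1 / p) := by
        rw [← Real.rpow_mul h3, mul_one_div_cancel hp0, Real.rpow_one]
    _ ≤ (N ^ (p - 1) * T) ^ (1 / p) := Real.rpow_le_rpow (Real.rpow_nonneg h3 _) h2 (by positivity)
    _ = N ^ (1 - 1 / p) * T ^ (1 / p) := by
        rw [Real.mul_rpow (Real.rpow_nonneg hN0 _) hT0, ← Real.rpow_mul hN0]
        congr 2
        field_simp

section
variable {P : Type} [Fintype P] [DecidableEq P] {k b : ℕ} {d m J Q : ℕ → ℕ} {B : ℕ → ℝ} {S : Type} [Fintype S]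
  [DecidableEq S]

/-- the adjacency matrix of layer `l` -/
private noncomputable def Am (g : LP P k b d m J Q B) (l : ℕ) : Matrix P P ℂ :=
  fun c v => if g.lev v = l ∧ c ∈ g.ch v then g.σ c v else 0

private theorem Am_mulVec (g : LP P k b d m J Q B) (l : ℕ) (y : P → ℂ) (c : P) :
    (Am g l).mulVec y c = ∑ v ∈ univ.filter (fun v => g.lev v = l ∧ c ∈ g.ch v), g.σ c v * y v := by
  show ∑ v, Am g l c v * y v = _
  rw [sum_filter]
  refine sum_congr rfl fun v _ => ?_
  unfold Am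
  split_ifs
  · rfl
  · exact zero_mul _

private theorem xm_mulVec (g : LP P k b d m J Q B) (p C : ℝ) (y : P → ℂ) (c : P) (hc : g.lev c ≠ 0) :
    (xm g p C).mulVec y c = ((C / (d (g.lev c - 1) : ℝ) ^ (1 / p) : ℝ) : ℂ) * (Am g (g.lev c - 1)).mulVec y c := by
  show ∑ v, xm g p C c v * y v = _ * ∑ v, Am g (g.lev c - 1) c v * y v
  rw [mul_sum]
  refine sum_congr rfl fun v _ => ?_
  unfold Am xm
  by_cases h : c ∈ g.ch v
  · have h1 := g.ch_lev v c h
    have h2 : g.lev v = g.lev c - 1 := by omega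
    rw [if_pos h, if_pos ⟨h2, h⟩, h2]
    ring
  · rw [if_neg h, if_neg fun h' => h h'.2]
    ring

private theorem xm_mulVec0 (g : LP P k b d m J Q B) (p C : ℝ) (y : P → ℂ) (c : P) (hc : g.lev c = 0) :
    (xm g p C).mulVec y c = 0 := by
  show ∑ v, xm g p C c v * y v = _
  refine sum_eq_zero fun v _ => ?_
  unfold xm
  rw [if_neg, zero_mul]
  intro h
  have h1 := g.ch_lev v c h
  omega

private theorem card_ch_le (g : LP P k b d m J Q B) (v : P) (h : k ≤ g.lev v) : g.ch v = ∅ := by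
  rw [eq_empty_iff_forall_notMem]
  intro c hc
  have h1 := g.ch_lev v c hc
  have h2 := g.lev_le c
  omega

/-- the norm of one layer -/
private theorem np_Am (hR : StRth) (g : LP P k b d m J Q B) {p δ : ℝ} (hp : 1 < p) (hp2 : p < 2) (hd : ∀ l, 1 ≤ d l)
    (hB : ∀ l, l < k → B l = (1 + δ) * d l) (hδ : 0 < δ) {l : ℕ} (hl : l < k) (y : P → ℂ) :
    np p ((Am g l).mulVec y) ≤ d l * (1 + δ) ^ (p - 1) * ∑ v ∈ univ.filter (fun v => g.lev v = l), ‖y v‖ ^ p := by
  have hd0 : (0 : ℝ) < d l := by exact_mod_cast hd l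
  have h1 : (Am g l).mulVec y = (Am g l).mulVec (fun v => if g.lev v = l then y v else 0) := by
    funext c
    rw [Am_mulVec, Am_mulVec]
    refine sum_congr rfl fun v hv => ?_
    rw [mem_filter] at hv
    rw [if_pos hv.2.1]
  have h2 := hR P P p (Am g l) (d l) ((1 + δ) * d l) hp hp2 hd0 (by positivity) (by
    intro v
    have e : ∀ c ∈ (univ : Finset P), ‖Am g l c v‖ = if c ∈ g.ch v then (if g.lev v = l then 1 else 0) else 0 := by
      intro c _
      unfold Am
      by_cases h : c ∈ g.ch v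
      · by_cases h' : g.lev v = l
        · rw [if_pos ⟨h', h⟩, if_pos h, if_pos h', g.uni]
        · rw [if_neg fun h'' => h' h''.1, if_pos h, if_neg h', norm_zero]
      · rw [if_neg fun h'' => h h''.2, if_neg h, norm_zero]
    rw [sum_congr rfl e, sum_ite_mem, univ_inter, sum_const, nsmul_eq_mul]
    split_ifs with h'
    · rw [g.card_ch v (by omega), h', mul_one]
    · rw [mul_zero]
      exact hd0.le) (by
    intro z
    have h3 := g.l2 l hl z
    rw [hB l hl] at h3
    simpa only [Am_mulVec] using h3) (fun v => if g.lev v = l then y v else 0)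
  rw [← h1] at h2
  refine h2.trans (le_of_eq ?_)
  have h4 : np p (fun v => if g.lev v = l then y v else 0) = ∑ v ∈ univ.filter (fun v => g.lev v = l), ‖y v‖ ^ p := by
    unfold np
    rw [sum_filter]
    refine sum_congr rfl fun v _ => ?_
    show ‖if g.lev v = l then y v else 0‖ ^ p = _
    split_ifs
    · rfl
    · rw [norm_zero, Real.zero_rpow (by linarith)]
  rw [h4]
  congr 1
  rw [Real.mul_rpow (by positivity) hd0.le, mul_comm ((1 + δ) ^ (p - 1)), ← mul_assoc, ← Real.rpow_add hd0]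
  norm_num

private theorem sum_layers (g : LP P k b d m J Q B) (f : P → ℝ) (hf : ∀ c, g.lev c = 0 → f c = 0) :
    ∑ c, f c = ∑ l ∈ range k, ∑ c ∈ univ.filter (fun v => g.lev v = l + 1), f c := by
  have h1 : ∑ c, f c = ∑ l ∈ range (k + 1), ∑ c ∈ univ.filter (fun v => g.lev v = l), f c := by
    rw [sum_fiberwise_of_maps_to]
    intro c _
    rw [mem_range]
    have := g.lev_le c
    omega
  rw [h1, sum_range_succ']
  have h2 : ∑ c ∈ univ.filter (fun v => g.lev v = 0), f c = 0 :=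
    sum_eq_zero fun c hc => hf c (mem_filter.1 hc).2
  rw [h2, add_zero]

private theorem opLe_xm (hR : StRth) (g : LP P k b d m J Q B) {p C r δ : ℝ} (hp : 1 < p) (hp2 : p < 2)
    (hd : ∀ l, 1 ≤ d l) (hB : ∀ l, l < k → B l = (1 + δ) * d l) (hC : 0 < C) (hδ : 0 < δ)
    (hr : C * (1 + δ) ^ (1 - 1 / p) ≤ r) : OpLe p (xm g p C) r := by
  intro y
  have hp0 : p ≠ 0 := by linarith
  have hy0 := np_nonneg p y
  have e1 : np p ((xm g p C).mulVec y) ≤ ∑ l ∈ range k, C ^ p / d l * np p ((Am g l).mulVec y) := by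
    unfold np
    rw [sum_layers g _ (fun c hc => by
      rw [xm_mulVec0 g p C y c hc, norm_zero, Real.zero_rpow hp0])]
    refine sum_le_sum fun l _ => ?_
    have hd0 : (0 : ℝ) < d l := by exact_mod_cast hd l
    calc ∑ c ∈ univ.filter (fun v => g.lev v = l + 1), ‖(xm g p C).mulVec y c‖ ^ p
        = ∑ c ∈ univ.filter (fun v => g.lev v = l + 1), C ^ p / d l * ‖(Am g l).mulVec y c‖ ^ p := by
          refine sum_congr rfl fun c hc => ?_
          have hc' := (mem_filter.1 hc).2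
          rw [xm_mulVec g p C y c (by omega), hc', Nat.add_sub_cancel, norm_mul, Complex.norm_real,
            Real.norm_of_nonneg (by positivity), Real.mul_rpow (by positivity) (norm_nonneg _),
            Real.div_rpow hC.le (by positivity), ← Real.rpow_mul hd0.le, one_div_mul_cancel hp0, Real.rpow_one]
      _ ≤ ∑ c, C ^ p / d l * ‖(Am g l).mulVec y c‖ ^ p :=
          sum_le_sum_of_subset_of_nonneg (filter_subset _ _) fun c _ _ => by positivity
      _ = C ^ p / d l * ∑ c, ‖(Am g l).mulVec y c‖ ^ p := (mul_sum _ _ _).symm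
  have e2 : ∑ l ∈ range k, C ^ p / d l * np p ((Am g l).mulVec y) ≤
      ∑ l ∈ range k, C ^ p * (1 + δ) ^ (p - 1) * ∑ v ∈ univ.filter (fun v => g.lev v = l), ‖y v‖ ^ p := by
    refine sum_le_sum fun l hl => ?_
    have hd0 : (0 : ℝ) < d l := by exact_mod_cast hd l
    refine (mul_le_mul_of_nonneg_left (np_Am hR g hp hp2 hd hB hδ (mem_range.1 hl) y) (by positivity)).trans
      (le_of_eq ?_)
    field_simp
  have e3 : ∑ l ∈ range k, C ^ p * (1 + δ) ^ (p - 1) * ∑ v ∈ univ.filter (fun v => g.lev v = l), ‖y v‖ ^ p ≤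
      C ^ p * (1 + δ) ^ (p - 1) * np p y := by
    rw [← mul_sum]
    refine mul_le_mul_of_nonneg_left ?_ (by positivity)
    have h1 : np p y = ∑ l ∈ range (k + 1), ∑ v ∈ univ.filter (fun v => g.lev v = l), ‖y v‖ ^ p := by
      unfold np
      rw [sum_fiberwise_of_maps_to]
      intro c _
      rw [mem_range]
      have := g.lev_le c
      omega
    rw [h1, sum_range_succ]
    have : 0 ≤ ∑ v ∈ univ.filter (fun v => g.lev v = k), ‖y v‖ ^ p :=
      sum_nonneg fun v _ => Real.rpow_nonneg (norm_nonneg _) _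
    linarith
  have e4 : C ^ p * (1 + δ) ^ (p - 1) ≤ r ^ p := by
    have h1 : C ^ p * (1 + δ) ^ (p - 1) = (C * (1 + δ) ^ (1 - 1 / p)) ^ p := by
      rw [Real.mul_rpow hC.le (by positivity), ← Real.rpow_mul (by positivity)]
      congr 2
      field_simp
    rw [h1]
    exact Real.rpow_le_rpow (by positivity) hr (by linarith)
  exact (e1.trans (e2.trans e3)).trans (mul_le_mul_of_nonneg_right e4 hy0)

omit [DecidableEq P] in
private theorem blk_mulVec (t : S → ℝ) (x0 : Matrix P P ℂ) (f : S × P → ℂ) (i : S × P) :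
    (blk t x0).mulVec f i = (t i.1 : ℂ) * x0.mulVec (fun c => f (i.1, c)) i.2 := by
  show ∑ j, blk t x0 i j * f j = _ * ∑ c, x0 i.2 c * f (i.1, c)
  rw [Fintype.sum_prod_type, sum_eq_single i.1]
  · rw [mul_sum]
    refine sum_congr rfl fun c _ => ?_
    unfold blk
    rw [if_pos rfl]
    ring
  · intro s _ hs
    refine sum_eq_zero fun c _ => ?_
    unfold blk
    rw [if_neg (fun h : i.1 = (s, c).1 => hs h.symm), zero_mul]
  · intro h
    exact absurd (mem_univ _) h

omit [DecidableEq P] in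
private theorem opLe_blk {p r : ℝ} (hp : 1 < p) (t : S → ℝ) (ht : ∀ s, 0 ≤ t s ∧ t s ≤ 1) {x0 : Matrix P P ℂ}
    (h : OpLe p x0 r) : OpLe p (blk t x0) r := by
  intro f
  unfold np
  rw [Fintype.sum_prod_type, Fintype.sum_prod_type, mul_sum]
  refine sum_le_sum fun s _ => ?_
  have h1 := h fun c => f (s, c)
  unfold np at h1
  refine le_trans (sum_le_sum fun c _ => ?_) h1
  rw [blk_mulVec]
  refine Real.rpow_le_rpow (norm_nonneg _) ?_ (by linarith)
  rw [norm_mul, Complex.norm_real, Real.norm_of_nonneg (ht s).1]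
  exact mul_le_of_le_one_left (norm_nonneg _) (ht s).2

/-- the bound of the entries in the row of `c` -/
private noncomputable def rb (g : LP P k b d m J Q B) (p C : ℝ) (c : P) : ℝ :=
  if g.lev c = 0 then 0 else C * dm p (d (g.lev c - 1)) (m (g.lev c - 1))

private theorem dm_nonneg (p : ℝ) (d m : ℕ) : 0 ≤ dm p d m := by
  unfold dm
  positivity

private theorem rb_nonneg (g : LP P k b d m J Q B) {p C : ℝ} (hC : 0 < C) (c : P) : 0 ≤ rb g p C c := by
  unfold rb
  split_ifs
  · exact le_rfl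
  · exact mul_nonneg hC.le (dm_nonneg _ _ _)

private theorem norm_row_le (g : LP P k b d m J Q B) {p C : ℝ} (hp : 1 < p) (hC : 0 < C) (hd : ∀ l, 1 ≤ d l) (t : S → ℝ)
    (ht : ∀ s, 0 ≤ t s ∧ t s ≤ 1) (v : S × P → ℂ) (i : S × P) :
    ‖(blk t (xm g p C)).mulVec v i‖ ≤ rb g p C i.2 * np p v ^ (1 / p) := by
  have hp0 : p ≠ 0 := by linarith
  rw [blk_mulVec, norm_mul, Complex.norm_real, Real.norm_of_nonneg (ht i.1).1]
  refine (mul_le_of_le_one_left (norm_nonneg _) (ht i.1).2).trans ?_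
  by_cases hc : g.lev i.2 = 0
  · rw [xm_mulVec0 g p C _ _ hc, norm_zero]
    exact mul_nonneg (rb_nonneg g hC _) (Real.rpow_nonneg (np_nonneg _ _) _)
  · have hd0 : (0 : ℝ) < d (g.lev i.2 - 1) := by exact_mod_cast hd _
    rw [xm_mulVec g p C _ _ hc, norm_mul, Complex.norm_real, Real.norm_of_nonneg (by positivity), Am_mulVec]
    have h1 : ‖∑ u ∈ univ.filter (fun u => g.lev u = g.lev i.2 - 1 ∧ i.2 ∈ g.ch u), g.σ i.2 u * v (i.1, u)‖ ≤
        ∑ u ∈ univ.filter (fun u => g.lev u = g.lev i.2 - 1 ∧ i.2 ∈ g.ch u), ‖v (i.1, u)‖ := by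
      refine (norm_sum_le _ _).trans (le_of_eq ?_)
      refine sum_congr rfl fun u _ => ?_
      rw [norm_mul, g.uni, one_mul]
    have h2 : ∑ u ∈ univ.filter (fun u => g.lev u = g.lev i.2 - 1 ∧ i.2 ∈ g.ch u), ‖v (i.1, u)‖ ≤
        (m (g.lev i.2 - 1) : ℝ) ^ (1 - 1 / p) * np p v ^ (1 / p) := by
      refine holder _ _ (fun _ _ => norm_nonneg _) hp ?_ ?_
      · have h3 := g.card_par i.2
        have h4 : (univ.filter (fun u => g.lev u = g.lev i.2 - 1 ∧ i.2 ∈ g.ch u)).card ≤
            (univ.filter fun u => i.2 ∈ g.ch u).card :=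
          card_le_card fun u hu => mem_filter.2 ⟨mem_univ _, (mem_filter.1 hu).2.2⟩
        exact_mod_cast h4.trans h3
      · unfold np
        rw [Fintype.sum_prod_type]
        calc ∑ u ∈ univ.filter (fun u => g.lev u = g.lev i.2 - 1 ∧ i.2 ∈ g.ch u), ‖v (i.1, u)‖ ^ p
            ≤ ∑ u, ‖v (i.1, u)‖ ^ p :=
              sum_le_sum_of_subset_of_nonneg (filter_subset _ _) fun u _ _ => Real.rpow_nonneg (norm_nonneg _) _
          _ ≤ ∑ s, ∑ u, ‖v (s, u)‖ ^ p :=
              single_le_sum (f := fun s => ∑ u, ‖v (s, u)‖ ^ p)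
                (fun s _ => sum_nonneg fun u _ => Real.rpow_nonneg (norm_nonneg _) _) (mem_univ i.1)
    have h5 : rb g p C i.2 = C / (d (g.lev i.2 - 1) : ℝ) ^ (1 / p) * (m (g.lev i.2 - 1) : ℝ) ^ (1 - 1 / p) := by
      unfold rb dm
      rw [if_neg hc, Real.rpow_neg hd0.le]
      field_simp
    rw [h5, mul_assoc]
    exact mul_le_mul_of_nonneg_left (h1.trans h2) (by positivity)

private theorem sum_rb (g : LP P k b d m J Q B) (p C : ℝ) :
    ∑ c, rb g p C c = b * (C * ∑ l ∈ range k, Rr d m (l + 1) * dm p (d l) (m l)) := by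
  rw [sum_layers g _ (fun c hc => by unfold rb; rw [if_pos hc]), mul_sum, mul_sum]
  refine sum_congr rfl fun l hl => ?_
  have h3 : ∀ c ∈ univ.filter (fun v => g.lev v = l + 1), rb g p C c = C * dm p (d l) (m l) := by
    intro c hc
    rw [mem_filter] at hc
    unfold rb
    rw [hc.2, if_neg (by omega), Nat.add_sub_cancel]
  rw [sum_congr rfl h3, sum_const, nsmul_eq_mul, g.card_lev (l + 1) (by have := mem_range.1 hl; omega)]
  ring

end

theorem hEEX : StEex := by
  intro hRkt hR P _ _ k b d m J Q B g S _ _ t p C K r δ hp hp2 hd hB hC hK hδ _ hr ht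
  have hx := opLe_xm hR g hp hp2 hd hB hC hδ hr
  refine ⟨hx, opLe_blk hp t ht hx, fun Y hY hidem => ⟨fun f hf i => ?_, ?_⟩⟩
  · have h1 : ‖f i‖ ≤ rb g p C i.2 * np p (Y.mulVec f) ^ (1 / p) := by
      conv_lhs => rw [← hf, ← Matrix.mulVec_mulVec]
      exact norm_row_le g hp hC hd t ht _ i
    refine h1.trans ((mul_le_mul_of_nonneg_left (opLe_root hp hK hY f) (rb_nonneg g hC _)).trans (le_of_eq ?_))
    unfold rb
    split_ifs
    · ring
    · ring
  · refine (hRkt _ _ hidem).trans ?_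
    have h1 : ∀ i ∈ (univ : Finset (S × P)), ‖(blk t (xm g p C) * Y) i i‖ ≤ rb g p C i.2 * K := by
      intro i _
      have e : (blk t (xm g p C) * Y) i i = (blk t (xm g p C)).mulVec (Y.mulVec (Pi.single i 1)) i := by
        rw [Matrix.mulVec_mulVec, Matrix.mulVec_single_one]
        rfl
      rw [e]
      refine (norm_row_le g hp hC hd t ht _ i).trans (mul_le_mul_of_nonneg_left ?_ (rb_nonneg g hC _))
      have h2 := opLe_root hp hK hY (Pi.single i 1)
      rwa [np_single hp, Real.one_rpow, mul_one] at h2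
    refine (sum_le_sum h1).trans (le_of_eq ?_)
    rw [Fintype.sum_prod_type]
    have h2 : ∀ s ∈ (univ : Finset S), ∑ c : P, rb g p C (s, c).2 * K =
        b * (C * K * ∑ l ∈ range k, Rr d m (l + 1) * dm p (d l) (m l)) := by
      intro s _
      rw [← sum_mul]
      show (∑ c, rb g p C c) * K = _
      rw [sum_rb g]
      ring
    rw [sum_congr rfl h2, sum_const, card_univ, nsmul_eq_mul]

end Pool.Agent.Helper52.XP
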